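import Pool.Agent.BEK.Stmts

/-!
# Squad BEK, row ORK: an eigenfunction is orthogonal to `(Δ + l) g(|y|²)`
-/

set_option autoImplicit false

namespace Pool.Agent.BEK.H21

open Set Filter Topology MeasureTheory
open scoped InnerProductSpace ENNReal
open Pool.Agent.BE01 Pool.Agent.BED Pool.Agent.BEJ Pool.Agent.BEK
open Pool.Agent.BES (Lg)

theorem dom_An {a b : ℝ} (ha : 0 < a) (hab : a < b) : Dom (An a b) := by
  refine ⟨?_, ?_, ?_⟩
  · exact (isOpen_lt continuous_const continuous_norm).inter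
      (isOpen_lt continuous_norm continuous_const)
  · refine (Metric.isBounded_ball (x := (0 : En 2)) (r := b)).subset fun x hx => ?_
    rw [mem_ball_zero_iff]
    exact hx.2
  · refine ⟨EuclideanSpace.single 0 ((a + b) / 2), ?_⟩
    have h : ‖(EuclideanSpace.single 0 ((a + b) / 2) : En 2)‖ = (a + b) / 2 := by
      rw [EuclideanSpace.norm_single, Real.norm_eq_abs, abs_of_pos (by linarith)]
    constructor
    · rw [h]; linarith
    · rw [h]; linarith

theorem cont_Lg {μ l : ℝ} {g : ℝ → ℝ}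
    (hg : ContDiffOn ℝ ((⊤ : ℕ∞) : WithTop ℕ∞) g (Ioi 0)) : ContinuousOn (Lg μ l g) (Ioi 0) := by
  have h1 := ((contDiffOn_infty_iff_deriv_of_isOpen isOpen_Ioi).1 hg).2
  have h2 := ((contDiffOn_infty_iff_deriv_of_isOpen isOpen_Ioi).1 h1).2
  have c0 := hg.continuousOn
  have c1 := h1.continuousOn
  have c2 := h2.continuousOn
  unfold Lg
  exact (((continuousOn_const.mul continuousOn_id).mul c2).add (continuousOn_const.mul c1)).add
    (continuousOn_const.mul c0)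

theorem mem_Lg {a b μ l : ℝ} {g : ℝ → ℝ} (ha : 0 < a) (hab : a < b)
    (hg : ContDiffOn ℝ ((⊤ : ℕ∞) : WithTop ℕ∞) g (Ioi 0)) :
    MemLp (fun x : En 2 => Lg μ l g (‖x‖ ^ 2)) 2 (mu (An a b)) := by
  have hΩ := dom_An ha hab
  have hfin : IsFiniteMeasure (mu (An a b)) := ⟨by
    unfold mu
    rw [Measure.restrict_apply_univ]
    exact hΩ.2.1.measure_lt_top⟩
  have hsub : Icc (a ^ 2) (b ^ 2) ⊆ Ioi 0 := fun t ht => lt_of_lt_of_le (by positivity) ht.1
  obtain ⟨C, hC⟩ := (isCompact_Icc (a := a ^ 2) (b := b ^ 2)).exists_bound_of_continuousOn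
    ((cont_Lg (μ := μ) (l := l) hg).mono hsub)
  have hmaps : MapsTo (fun x : En 2 => ‖x‖ ^ 2) (An a b) (Icc (a ^ 2) (b ^ 2)) := fun x hx =>
    ⟨pow_le_pow_left₀ ha.le hx.1.le 2, pow_le_pow_left₀ (norm_nonneg _) hx.2.le 2⟩
  refine MemLp.of_bound ?_ C ?_
  · unfold mu
    refine ContinuousOn.aestronglyMeasurable ?_ hΩ.1.measurableSet
    exact (cont_Lg hg).comp (continuous_norm.pow 2).continuousOn fun x hx => hsub (hmaps hx)
  · unfold mu
    exact ae_restrict_of_forall_mem hΩ.1.measurableSet fun x hx => hC _ (hmaps hx)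

/-- row ORK -/
theorem ork (rwk : RwkStmt) (rhk : RhkStmt) (weo : Pool.Agent.BEO.WeoStmt) : OrkStmt := by
  intro a b l g u ha hab hg hga hgb hu
  have hdom := dom_An ha hab
  obtain ⟨f, F, hfF, hf, hF⟩ := rhk a b g ha hab hg hga hgb
  obtain ⟨G, hG, hw⟩ := hu
  obtain ⟨v, hv⟩ : ∃ v : En 2 → ℝ, v = fun x => g (‖x‖ ^ 2) := ⟨_, rfl⟩
  obtain ⟨w, hwd⟩ : ∃ w : En 2 → ℝ, w = fun x => Lg 0 0 g (‖x‖ ^ 2) := ⟨_, rfl⟩
  rw [← hv] at hf hF
  have hmem : MemLp (gradient v) 2 (mu (An a b)) := (Lp.memLp F).ae_eq hF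
  have mv : MemLp v 2 (mu (An a b)) := (Lp.memLp f).ae_eq hf
  have mw : MemLp w 2 (mu (An a b)) := by
    rw [hwd]
    exact mem_Lg ha hab hg
  -- the weak equation for `v`
  have hpw : ∀ ψ, Tst (An a b) ψ →
      ∫ x, ⟪gradient ψ x, gradient v x⟫_ℝ ∂(mu (An a b)) =
        - ∫ x, ψ x * w x ∂(mu (An a b)) := by
    intro ψ hψ
    rw [hv, hwd]
    exact rwk a b g ψ ha hab hg hψ
  have hG1 : ∀ G' : Lp (En 2) 2 (mu (An a b)),
      ∫ x, ⟪G' x, gradient v x⟫_ℝ ∂(mu (An a b)) = ⟪G', hmem.toLp _⟫_ℝ := by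
    intro G'
    rw [L2.inner_def]
    refine integral_congr_ae ?_
    filter_upwards [hmem.coeFn_toLp] with x hx
    rw [hx]
  have hU1 : ∀ u' : Lp ℝ 2 (mu (An a b)),
      ∫ x, u' x * w x ∂(mu (An a b)) = ⟪u', mw.toLp _⟫_ℝ := by
    intro u'
    rw [L2.inner_def]
    refine integral_congr_ae ?_
    filter_upwards [mw.coeFn_toLp] with x hx
    rw [hx]
    simp only [RCLike.inner_apply, conj_trivial]
    ring
  have h3 : ∫ x, ⟪G x, gradient v x⟫_ℝ ∂(mu (An a b)) =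
      - ∫ x, u x * w x ∂(mu (An a b)) := by
    rw [hG1, hU1]
    have hcl : IsClosed {Q : Lp ℝ 2 (mu (An a b)) × Lp (En 2) 2 (mu (An a b)) |
        ⟪Q.2, hmem.toLp _⟫_ℝ = - ⟪Q.1, mw.toLp _⟫_ℝ} :=
      isClosed_eq (continuous_snd.inner continuous_const)
        (continuous_fst.inner continuous_const).neg
    have hsub : {Q : Lp ℝ 2 (mu (An a b)) × Lp (En 2) 2 (mu (An a b)) |
        ∃ ψ, Tst (An a b) ψ ∧ Q.1 =ᵐ[mu (An a b)] ψ ∧ Q.2 =ᵐ[mu (An a b)] gradient ψ} ⊆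
        {Q : Lp ℝ 2 (mu (An a b)) × Lp (En 2) 2 (mu (An a b)) |
        ⟪Q.2, hmem.toLp _⟫_ℝ = - ⟪Q.1, mw.toLp _⟫_ℝ} := by
      rintro ⟨q1, q2⟩ ⟨ψ, hψ, h1, h2⟩
      show ⟪q2, hmem.toLp _⟫_ℝ = - ⟪q1, mw.toLp _⟫_ℝ
      rw [← hG1, ← hU1]
      have e1 : ∫ x, ⟪q2 x, gradient v x⟫_ℝ ∂(mu (An a b)) =
          ∫ x, ⟪gradient ψ x, gradient v x⟫_ℝ ∂(mu (An a b)) := by
        refine integral_congr_ae ?_
        filter_upwards [h2] with x hx
        rw [hx]
      have e2 : ∫ x, q1 x * w x ∂(mu (An a b)) = ∫ x, ψ x * w x ∂(mu (An a b)) := by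
        refine integral_congr_ae ?_
        filter_upwards [h1] with x hx
        rw [hx]
      rw [e1, e2]
      exact hpw ψ hψ
    exact closure_minimal hsub hcl hG
  -- test the equation of `u` with `v`
  have hwex := weo 2 (An a b) f (l • u) G F hdom (by
    intro ψ hψ
    rw [hw ψ hψ, ← integral_const_mul]
    refine integral_congr_ae ?_
    filter_upwards [Lp.coeFn_smul l u] with x hx
    rw [hx]
    simp only [Pi.smul_apply, smul_eq_mul]
    ring) hfF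
  have h1 : ∫ x, ⟪G x, F x⟫_ℝ ∂(mu (An a b)) =
      ∫ x, ⟪G x, gradient v x⟫_ℝ ∂(mu (An a b)) := by
    refine integral_congr_ae ?_
    filter_upwards [hF] with x hx
    rw [hx]
  have h2 : ∫ x, (l • u : Lp ℝ 2 (mu (An a b))) x * f x ∂(mu (An a b)) =
      ∫ x, l * (u x * v x) ∂(mu (An a b)) := by
    refine integral_congr_ae ?_
    filter_upwards [Lp.coeFn_smul l u, hf] with x hx hx'
    rw [hx, hx']
    simp only [Pi.smul_apply, smul_eq_mul]
    ring
  rw [h1, h3, h2] at hwex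
  have i1 : Integrable (fun x => u x * w x) (mu (An a b)) :=
    (Lp.memLp u).integrable_mul mw
  have i2 : Integrable (fun x => u x * v x) (mu (An a b)) :=
    (Lp.memLp u).integrable_mul mv
  have h4 : (fun x => u x * Lg 0 l g (‖x‖ ^ 2)) =
      fun x => u x * w x + l * (u x * v x) := by
    funext x
    rw [hwd, hv]
    unfold Lg
    ring
  rw [h4, integral_add i1 (i2.const_mul l), ← hwex]
  ring

end Pool.Agent.BEK.H21
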